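import Pool.Agent.helper52.WP.SpecC

set_option autoImplicit false

open Complex Metric Set Filter Topology MeasureTheory
open V3S (UF)
open WP

noncomputable section

namespace WPC

theorem AFX_one (p g : ℕ → ℂ) (k : ℕ) (hk : 1 ≤ k) (x : ℂ) (hp : ∀ j ∈ Finset.Ico 1 k, p j ≠ 0)
    (hx : ∀ j ∈ Finset.Ico 1 k, x - p j ≠ 0) :
    ∑ j ∈ Finset.range k, g j / (x - p j) + ∑ j ∈ Finset.Ico 1 k, g j / p j
      + (∑ j ∈ Finset.Ico 1 k, g j / p j ^ 2) * x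
      = g 0 / (x - p 0) + ∑ j ∈ Finset.Ico 1 k, g j * (x ^ 2 / (p j ^ 2 * (x - p j))) := by
  have h1 : ∑ j ∈ Finset.range k, g j / (x - p j)
      = g 0 / (x - p 0) + ∑ j ∈ Finset.Ico 1 k, g j / (x - p j) := by
    rw [Finset.range_eq_Ico, Finset.sum_eq_sum_Ico_succ_bot (by omega)]
  rw [h1, add_assoc, add_assoc]
  congr 1
  rw [Finset.sum_mul, ← Finset.sum_add_distrib, ← Finset.sum_add_distrib]
  apply Finset.sum_congr rfl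
  intro j hj
  have h2 := hp j hj
  have h3 := hx j hj
  field_simp
  ring

theorem AFX_bd (hNPK : V3.NPK_stmt) (hNSU : V3.NSU_stmt) (C ρ K c₀ : ℝ) (hC : 1 ≤ C) (hρ : 1 ≤ ρ) (hK : 0 ≤ K)
    (hc₀ : 0 < c₀) (p g : ℕ → ℂ) (k : ℕ) (δ : ℝ) (hδ : 0 < δ) (hδ1 : δ ≤ 1) (x : ℂ) (hx : ‖x‖ ≤ ρ)
    (hd : ∀ j ∈ Finset.Ico 1 k, δ ≤ ‖x - p j‖) (hp : ∀ j ∈ Finset.Ico 1 k, 1 / C ≤ ‖p j‖)
    (hg : ∀ j ∈ Finset.Ico 1 k, ‖g j‖ ≤ K)
    (hs : ∀ j ∈ Finset.Ico 1 k, ∀ l ∈ Finset.Ico 1 k, j ≠ l → c₀ ≤ ‖p j - p l‖) :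
    ‖∑ j ∈ Finset.Ico 1 k, g j * (x ^ 2 / (p j ^ 2 * (x - p j)))‖
      ≤ ((1 + 4 * ρ / c₀) ^ 2 * (K * ρ ^ 2 * C ^ 2) + 50 * K * ρ / (min c₀ 1) ^ 2) / δ := by
  classical
  have hCpos : 0 < C := by linarith
  have hρpos : 0 < ρ := by linarith
  set S1 := (Finset.Ico 1 k).filter (fun j => ‖p j‖ < 2 * ρ) with hS1
  set S2 := (Finset.Ico 1 k).filter (fun j => ¬ ‖p j‖ < 2 * ρ) with hS2
  have hsplit : ∑ j ∈ Finset.Ico 1 k, ‖g j * (x ^ 2 / (p j ^ 2 * (x - p j)))‖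
      = ∑ j ∈ S1, ‖g j * (x ^ 2 / (p j ^ 2 * (x - p j)))‖
        + ∑ j ∈ S2, ‖g j * (x ^ 2 / (p j ^ 2 * (x - p j)))‖ :=
    (Finset.sum_filter_add_sum_filter_not _ _ _).symm
  have hterm : ∀ j, ‖g j * (x ^ 2 / (p j ^ 2 * (x - p j)))‖ = ‖g j‖ * (‖x‖ ^ 2 / (‖p j‖ ^ 2 * ‖x - p j‖)) := by
    intro j
    rw [norm_mul, norm_div, norm_mul, norm_pow, norm_pow]
  have hx2 : ‖x‖ ^ 2 ≤ ρ ^ 2 := pow_le_pow_left₀ (norm_nonneg _) hx 2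
  -- near terms
  have hb1 : ∑ j ∈ S1, ‖g j * (x ^ 2 / (p j ^ 2 * (x - p j)))‖ ≤ (1 + 4 * ρ / c₀) ^ 2 * (K * ρ ^ 2 * C ^ 2) / δ := by
    have hcard : (S1.card : ℝ) ≤ (1 + 4 * ρ / c₀) ^ 2 := by
      have h := hNPK ℕ p S1 c₀ (2 * ρ) hc₀ (by linarith) (fun i hi l hl hil => by
        exact hs i (Finset.mem_filter.mp hi).1 l (Finset.mem_filter.mp hl).1 hil)
        (fun i hi => (Finset.mem_filter.mp hi).2)
      have h2 : 2 * (2 * ρ) / c₀ = 4 * ρ / c₀ := by ring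
      rw [h2] at h
      exact h
    have hle : ∀ j ∈ S1, ‖g j * (x ^ 2 / (p j ^ 2 * (x - p j)))‖ ≤ K * ρ ^ 2 * C ^ 2 / δ := by
      intro j hj
      have hj1 := (Finset.mem_filter.mp hj).1
      rw [hterm]
      have h1 : 1 / C ≤ ‖p j‖ := hp j hj1
      have h2 : (1 / C) ^ 2 ≤ ‖p j‖ ^ 2 := pow_le_pow_left₀ (by positivity) h1 2
      have h3 : (1 / C) ^ 2 * δ ≤ ‖p j‖ ^ 2 * ‖x - p j‖ :=
        mul_le_mul h2 (hd j hj1) hδ.le (by positivity)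
      have h4 : ‖x‖ ^ 2 / (‖p j‖ ^ 2 * ‖x - p j‖) ≤ ρ ^ 2 / ((1 / C) ^ 2 * δ) :=
        div_le_div₀ (by positivity) hx2 (by positivity) h3
      have h5 : ‖g j‖ * (‖x‖ ^ 2 / (‖p j‖ ^ 2 * ‖x - p j‖)) ≤ K * (ρ ^ 2 / ((1 / C) ^ 2 * δ)) :=
        mul_le_mul (hg j hj1) h4 (by positivity) hK
      have h6 : K * (ρ ^ 2 / ((1 / C) ^ 2 * δ)) = K * ρ ^ 2 * C ^ 2 / δ := by
        field_simp
      rw [h6] at h5
      exact h5
    calc ∑ j ∈ S1, ‖g j * (x ^ 2 / (p j ^ 2 * (x - p j)))‖ ≤ S1.card • (K * ρ ^ 2 * C ^ 2 / δ) :=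
          Finset.sum_le_card_nsmul _ _ _ hle
      _ = (S1.card : ℝ) * (K * ρ ^ 2 * C ^ 2 / δ) := by rw [nsmul_eq_mul]
      _ ≤ (1 + 4 * ρ / c₀) ^ 2 * (K * ρ ^ 2 * C ^ 2 / δ) :=
          mul_le_mul_of_nonneg_right hcard (by positivity)
      _ = (1 + 4 * ρ / c₀) ^ 2 * (K * ρ ^ 2 * C ^ 2) / δ := by ring
  -- far terms
  have hb2 : ∑ j ∈ S2, ‖g j * (x ^ 2 / (p j ^ 2 * (x - p j)))‖ ≤ 50 * K * ρ / (min c₀ 1) ^ 2 / δ := by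
    have hc1 : 0 < min c₀ 1 := lt_min hc₀ one_pos
    have hsum := hNSU ℕ p S2 (min c₀ 1) (2 * ρ) hc1 ((min_le_right _ _).trans (by linarith))
      (fun i hi l hl hil => (min_le_left _ _).trans
        (hs i (Finset.mem_filter.mp hi).1 l (Finset.mem_filter.mp hl).1 hil))
      (fun i hi => not_lt.mp (Finset.mem_filter.mp hi).2)
    have hle : ∀ j ∈ S2, ‖g j * (x ^ 2 / (p j ^ 2 * (x - p j)))‖ ≤ 2 * K * ρ ^ 2 * (1 / ‖p j‖ ^ 3) := by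
      intro j hj
      have hj1 := (Finset.mem_filter.mp hj).1
      have hj2 : 2 * ρ ≤ ‖p j‖ := not_lt.mp (Finset.mem_filter.mp hj).2
      have hpj : 0 < ‖p j‖ := by linarith
      rw [hterm]
      have h1 : ‖p j‖ / 2 ≤ ‖x - p j‖ := by
        have := norm_sub_norm_le (p j) x
        rw [norm_sub_rev] at this
        linarith
      have h3 : ‖p j‖ ^ 2 * (‖p j‖ / 2) ≤ ‖p j‖ ^ 2 * ‖x - p j‖ :=
        mul_le_mul_of_nonneg_left h1 (by positivity)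
      have h4 : ‖x‖ ^ 2 / (‖p j‖ ^ 2 * ‖x - p j‖) ≤ ρ ^ 2 / (‖p j‖ ^ 2 * (‖p j‖ / 2)) :=
        div_le_div₀ (by positivity) hx2 (by positivity) h3
      have h5 : ‖g j‖ * (‖x‖ ^ 2 / (‖p j‖ ^ 2 * ‖x - p j‖)) ≤ K * (ρ ^ 2 / (‖p j‖ ^ 2 * (‖p j‖ / 2))) :=
        mul_le_mul (hg j hj1) h4 (by positivity) hK
      have h6 : K * (ρ ^ 2 / (‖p j‖ ^ 2 * (‖p j‖ / 2))) = 2 * K * ρ ^ 2 * (1 / ‖p j‖ ^ 3) := by
        field_simp
      rw [h6] at h5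
      exact h5
    calc ∑ j ∈ S2, ‖g j * (x ^ 2 / (p j ^ 2 * (x - p j)))‖ ≤ ∑ j ∈ S2, 2 * K * ρ ^ 2 * (1 / ‖p j‖ ^ 3) :=
          Finset.sum_le_sum hle
      _ = 2 * K * ρ ^ 2 * ∑ j ∈ S2, 1 / ‖p j‖ ^ 3 := by rw [Finset.mul_sum]
      _ ≤ 2 * K * ρ ^ 2 * (50 / ((min c₀ 1) ^ 2 * (2 * ρ))) :=
          mul_le_mul_of_nonneg_left hsum (by positivity)
      _ = 50 * K * ρ / (min c₀ 1) ^ 2 := by
          field_simp
      _ ≤ 50 * K * ρ / (min c₀ 1) ^ 2 / δ := by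
          rw [le_div_iff₀ hδ]
          exact mul_le_of_le_one_right (by positivity) hδ1
  calc ‖∑ j ∈ Finset.Ico 1 k, g j * (x ^ 2 / (p j ^ 2 * (x - p j)))‖
      ≤ ∑ j ∈ Finset.Ico 1 k, ‖g j * (x ^ 2 / (p j ^ 2 * (x - p j)))‖ := norm_sum_le _ _
    _ = _ := hsplit
    _ ≤ (1 + 4 * ρ / c₀) ^ 2 * (K * ρ ^ 2 * C ^ 2) / δ + 50 * K * ρ / (min c₀ 1) ^ 2 / δ := add_le_add hb1 hb2
    _ = _ := by ring

theorem AFX (hCB2 : CB2_stmt) (hNPK : V3.NPK_stmt) (hNSU : V3.NSU_stmt) : AFX_stmt := by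
  intro C ρ hC hρ
  obtain ⟨c₀, hc₀, K, hK, hall⟩ := hCB2 C hC
  have hCpos : 0 < C := by linarith
  have hρpos : 0 < ρ := by linarith
  set M : ℝ := (1 + 4 * ρ / c₀) ^ 2 * (K * ρ ^ 2 * C ^ 2) + 50 * K * ρ / (min c₀ 1) ^ 2 with hM
  have hc1 : 0 < min c₀ 1 := lt_min hc₀ one_pos
  have hM0 : 0 ≤ M := by
    have : 0 ≤ K := by linarith
    positivity
  refine ⟨3 * (K + M), by linarith, ?_⟩
  intro n A D hD δ hδ hδ1 x hx hsep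
  obtain ⟨-, -, -, -, h5, -, h7, h8, -⟩ := hall n A D hD
  have hx' : ‖x‖ ≤ ρ := by simpa using hx
  have hai : ∀ i, D.a i ∈ ball (0 : ℂ) (1 / C) := by
    intro i
    rw [mem_ball_zero_iff]
    refine lt_of_le_of_lt (hD.pt i) ?_
    rw [div_lt_div_iff₀ (by positivity) hCpos]
    linarith
  have hpn : ∀ i : Fin 3, ∀ j ∈ Finset.Ico 1 D.k, 1 / C ≤ ‖D.p i j‖ := by
    intro i j hj
    rw [Finset.mem_Ico] at hj
    exact h8 j hj.1 hj.2 (D.a i) (hai i)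
  have hp0 : ∀ i : Fin 3, ∀ j ∈ Finset.Ico 1 D.k, D.p i j ≠ 0 := by
    intro i j hj h0
    have := hpn i j hj
    rw [h0, norm_zero] at this
    have h9 : 0 < 1 / C := by positivity
    linarith
  have hxp : ∀ i : Fin 3, ∀ j ∈ Finset.Ico 1 D.k, x - D.p i j ≠ 0 := by
    intro i j hj h0
    rw [Finset.mem_Ico] at hj
    have := hsep i j hj.2
    rw [h0, norm_zero] at this
    linarith
  have hone : ∀ i : Fin 3, ‖∑ j ∈ Finset.range D.k, D.g i j / (x - D.p i j) + ∑ j ∈ Finset.Ico 1 D.k, D.g i j / D.p i j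
      + (∑ j ∈ Finset.Ico 1 D.k, D.g i j / D.p i j ^ 2) * x‖ ≤ (K + M) / δ := by
    intro i
    rw [AFX_one (D.p i) (D.g i) D.k hD.hk x (hp0 i) (hxp i)]
    refine (norm_add_le _ _).trans ?_
    rw [add_div]
    apply add_le_add
    · rw [norm_div]
      exact div_le_div₀ (by linarith) (h5 i 0 (Nat.zero_le _)) hδ (hsep i 0 (by have := hD.hk; omega))
    · apply AFX_bd hNPK hNSU C ρ K c₀ hC hρ (by linarith) hc₀ (D.p i) (D.g i) D.k δ hδ hδ1 x hx'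
      · intro j hj
        exact hsep i j (Finset.mem_Ico.mp hj).2
      · exact hpn i
      · intro j hj
        exact h5 i j (Finset.mem_Ico.mp hj).2.le
      · intro j hj l hl hjl
        exact (h7 i j (Finset.mem_Ico.mp hj).2 l (Finset.mem_Ico.mp hl).2 hjl).1
  have hsum : D.B0 x - D.ca - D.cb * x = ∑ i : Fin 3, (∑ j ∈ Finset.range D.k, D.g i j / (x - D.p i j)
      + ∑ j ∈ Finset.Ico 1 D.k, D.g i j / D.p i j + (∑ j ∈ Finset.Ico 1 D.k, D.g i j / D.p i j ^ 2) * x) := by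
    unfold Dat.B0 Dat.ca Dat.cb
    rw [Finset.sum_add_distrib, Finset.sum_add_distrib, ← Finset.sum_mul]
    ring
  rw [hsum]
  calc ‖∑ i : Fin 3, (∑ j ∈ Finset.range D.k, D.g i j / (x - D.p i j)
      + ∑ j ∈ Finset.Ico 1 D.k, D.g i j / D.p i j + (∑ j ∈ Finset.Ico 1 D.k, D.g i j / D.p i j ^ 2) * x)‖
      ≤ ∑ i : Fin 3, ‖∑ j ∈ Finset.range D.k, D.g i j / (x - D.p i j)
      + ∑ j ∈ Finset.Ico 1 D.k, D.g i j / D.p i j + (∑ j ∈ Finset.Ico 1 D.k, D.g i j / D.p i j ^ 2) * x‖ := norm_sum_le _ _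
    _ ≤ ∑ _i : Fin 3, (K + M) / δ := Finset.sum_le_sum (fun i _ => hone i)
    _ = 3 * (K + M) / δ := by
        rw [Finset.sum_const, Finset.card_univ, Fintype.card_fin, nsmul_eq_mul]
        push_cast
        ring

end WPC
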